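import Pool.Agent.Helper99.DF.St

set_option autoImplicit false

namespace Pool.Agent.Helper94.DF

open Pool.Agent.Helper99.DF

theorem zero_succ (b : ℕ → ℤ) (hb : ∀ t k, 0 ≤ (T^[t] b) k) (t k : ℕ) (h : (T^[t] b) k = 0) :
    (T^[t + 1] b) k = 0 := by
  apply le_antisymm _ (hb _ _)
  rw [T_succ, h]
  have := mul_nonneg (hb t (k - 1)) (hb t (k + 1))
  linarith

theorem zero_add (b : ℕ → ℤ) (hb : ∀ t k, 0 ≤ (T^[t] b) k) (t k : ℕ) (h : (T^[t] b) k = 0)
    (j : ℕ) : (T^[t + j] b) k = 0 := by
  induction j with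
  | zero => exact h
  | succ j ih => exact zero_succ b hb (t + j) k ih

/-- The support of the `t`-th iterate. -/
def sup (l : List ℤ) (t : ℕ) : Finset ℕ :=
  (Finset.range l.length).filter (fun k => (T^[t] (sq l)) k ≠ 0)

theorem hSUP : StSUP := by
  intro l h0 hpos
  obtain ⟨t1, ht1⟩ : ∃ t1, ∀ t, (sup l t1).card ≤ (sup l t).card := by
    refine ⟨Function.argmin (fun t => (sup l t).card), fun t => ?_⟩
    exact Function.argmin_le (fun t => (sup l t).card) t
  have hlen : ∀ t k, l.length ≤ k → (T^[t] (sq l)) k = 0 := by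
    intro t k hk
    have := zero_add (sq l) hpos 0 k (sq_ge l k hk) t
    rwa [Nat.zero_add] at this
  have hsub : ∀ j, sup l (t1 + j) ⊆ sup l t1 := by
    intro j k hk
    unfold sup at hk ⊢
    rw [Finset.mem_filter] at hk ⊢
    refine ⟨hk.1, fun h => hk.2 (zero_add (sq l) hpos t1 k h j)⟩
  have heq : ∀ j, sup l (t1 + j) = sup l t1 := fun j =>
    Finset.eq_of_subset_of_card_le (hsub j) (ht1 _)
  refine ⟨t1, sup l t1, ⟨?_, ?_⟩, ?_⟩
  · intro h
    unfold sup at h
    rw [Finset.mem_filter] at h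
    apply h.2
    have := zero_add (sq l) hpos 0 0 h0 t1
    rwa [Nat.zero_add] at this
  · intro t k
    have e1 : (T^[t] (fun k => (((T^[t1] (sq l)) k : ℤ) : ℝ))) k =
        (((T^[t1 + t] (sq l)) k : ℤ) : ℝ) := by
      rw [T_iter_cast, ← Function.iterate_add_apply, Nat.add_comm]
    rw [e1]
    constructor
    · intro hk
      rw [← heq t] at hk
      unfold sup at hk
      rw [Finset.mem_filter] at hk
      have h1 := hpos (t1 + t) k
      have h2 : 0 < (T^[t1 + t] (sq l)) k := lt_of_le_of_ne h1 (Ne.symm hk.2)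
      exact_mod_cast h2
    · intro hk
      rw [← heq t] at hk
      unfold sup at hk
      rw [Finset.mem_filter, not_and, not_not, Finset.mem_range] at hk
      have h2 : (T^[t1 + t] (sq l)) k = 0 := by
        by_cases hkl : k < l.length
        · exact hk hkl
        · exact hlen _ _ (by omega)
      rw [h2, Int.cast_zero]
  · intro k hk
    unfold sup at hk
    rw [Finset.mem_filter, Finset.mem_range] at hk
    exact hk.1

end Pool.Agent.Helper94.DF
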