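import Pool.Agent.Helper99.DF.St

set_option autoImplicit false

namespace Pool.Agent.Helper94.DF

open Pool.Agent.Helper99.DF Pool.Agent.Helper4.IL

theorem sqP : Primrec₂ (fun (l : List ℤ) (k : ℕ) => sq l k) := Primrec.list_getD (0 : ℤ)

theorem sumP : Primrec (fun l : List ℤ => l.sum) := by
  have h := Primrec.list_foldr (α := List ℤ) (f := id) (g := fun _ => (0 : ℤ))
    (h := fun _ p => p.1 + p.2) Primrec.id (Primrec.const 0)
    (primrec_int_add.comp (Primrec.fst.comp Primrec.snd) (Primrec.snd.comp Primrec.snd))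
  exact h.of_eq fun l => rfl

theorem evzP : Primrec₂ (fun (p : List ℤ) (n : ℕ) => evz p n) := by
  have h := Primrec.list_foldr (α := List ℤ × ℕ) (f := fun q => q.1) (g := fun _ => (0 : ℤ))
    (h := fun q p => p.1 + (q.2 : ℤ) * p.2) Primrec.fst (Primrec.const 0)
    (primrec_int_add.comp (Primrec.fst.comp Primrec.snd)
      (primrec_int_mul.comp (primrec_int_ofNat.comp (Primrec.snd.comp Primrec.fst))
        (Primrec.snd.comp Primrec.snd)))
  exact h.of_eq fun q => rfl

/-- The coefficient polynomial number `j`. -/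
theorem getP : Primrec₂ (fun (L : List (List ℤ)) (j : ℕ) => L.getD j []) :=
  Primrec.list_getD ([] : List ℤ)

theorem getI : Primrec₂ (fun (L : List (ℤ × ℕ)) (j : ℕ) => L.getD j (0, 0)) :=
  Primrec.list_getD ((0 : ℤ), (0 : ℕ))

theorem hVP : StVP := by
  constructor
  · have f1 : Primrec (fun q : Inp × (ℕ × List ℤ) => q.1.1) := Primrec.fst.comp Primrec.fst
    have f2 : Primrec (fun q : Inp × (ℕ × List ℤ) => q.1.2) := Primrec.snd.comp Primrec.fst
    have fw : Primrec (fun q : Inp × (ℕ × List ℤ) => q.2.1) := Primrec.fst.comp Primrec.snd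
    have fl : Primrec (fun q : Inp × (ℕ × List ℤ) => q.2.2) := Primrec.snd.comp Primrec.snd
    have hw : PrimrecPred (fun q : Inp × (ℕ × List ℤ) => 0 < q.2.1) :=
      Primrec.nat_lt.comp (Primrec.const 0) fw
    have h0 : PrimrecPred (fun q : Inp × (ℕ × List ℤ) => sq q.2.2 0 = 0) :=
      Primrec.eq.comp (sqP.comp fl (Primrec.const 0)) (Primrec.const 0)
    have h1 : PrimrecPred (fun q : Inp × (ℕ × List ℤ) => q.1.2.length < q.2.2.length) :=
      Primrec.nat_lt.comp (Primrec.list_length.comp f2) (Primrec.list_length.comp fl)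
    have r2 : PrimrecRel (fun (k : ℕ) (q : Inp × (ℕ × List ℤ)) =>
        sq q.2.2 (k + 1) * (((q.1.2.getD k (0, 0)).2 : ℤ) + 1) =
          q.2.1 * (q.1.2.getD k (0, 0)).1) := by
      have g : Primrec (fun p : ℕ × (Inp × (ℕ × List ℤ)) => p.2.1.2.getD p.1 (0, 0)) :=
        getI.comp (f2.comp Primrec.snd) Primrec.fst
      refine Primrec.eq.comp ?_ ?_
      · exact primrec_int_mul.comp (sqP.comp (fl.comp Primrec.snd) (Primrec.succ.comp Primrec.fst))
          (primrec_int_add.comp (primrec_int_ofNat.comp (Primrec.snd.comp g)) (Primrec.const 1))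
      · exact primrec_int_mul.comp (primrec_int_ofNat.comp (fw.comp Primrec.snd))
          (Primrec.fst.comp g)
    have h2 : PrimrecPred (fun q : Inp × (ℕ × List ℤ) => ∀ k ∈ List.range q.1.2.length,
        sq q.2.2 (k + 1) * (((q.1.2.getD k (0, 0)).2 : ℤ) + 1) =
          q.2.1 * (q.1.2.getD k (0, 0)).1) :=
      r2.forall_mem_list.comp (Primrec.list_range.comp (Primrec.list_length.comp f2)) Primrec.id
    have s3 : Primrec (fun p : ℕ × (Inp × (ℕ × List ℤ)) =>
        ((List.range p.2.1.1.length).map
          (fun j => evz (p.2.1.1.getD j []) p.1 * sq p.2.2.2 (p.1 + j + 1))).sum) := by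
      refine sumP.comp ?_
      refine Primrec.list_map (Primrec.list_range.comp (Primrec.list_length.comp
        (f1.comp Primrec.snd))) ?_
      refine primrec_int_mul.comp ?_ ?_
      · exact evzP.comp (getP.comp (f1.comp (Primrec.snd.comp Primrec.fst)) Primrec.snd)
          (Primrec.fst.comp Primrec.fst)
      · exact sqP.comp (fl.comp (Primrec.snd.comp Primrec.fst))
          (Primrec.succ.comp (Primrec.nat_add.comp (Primrec.fst.comp Primrec.fst) Primrec.snd))
    have r3 : PrimrecRel (fun (n : ℕ) (q : Inp × (ℕ × List ℤ)) =>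
        n + q.1.2.length + 1 < q.2.2.length →
        ((List.range q.1.1.length).map
          (fun j => evz (q.1.1.getD j []) n * sq q.2.2 (n + j + 1))).sum = 0) := by
      have a1 : PrimrecPred (fun p : ℕ × (Inp × (ℕ × List ℤ)) =>
          ¬ (p.1 + p.2.1.2.length + 1 < p.2.2.2.length)) := by
        refine PrimrecPred.not ?_
        exact Primrec.nat_lt.comp (Primrec.succ.comp (Primrec.nat_add.comp Primrec.fst
          (Primrec.list_length.comp (f2.comp Primrec.snd))))
          (Primrec.list_length.comp (fl.comp Primrec.snd))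
      have a2 : PrimrecPred (fun p : ℕ × (Inp × (ℕ × List ℤ)) =>
          ((List.range p.2.1.1.length).map
          (fun j => evz (p.2.1.1.getD j []) p.1 * sq p.2.2.2 (p.1 + j + 1))).sum = 0) :=
        Primrec.eq.comp s3 (Primrec.const 0)
      exact (a1.or a2).of_eq fun p => imp_iff_not_or.symm
    have h3 : PrimrecPred (fun q : Inp × (ℕ × List ℤ) => ∀ n ∈ List.range q.2.2.length,
        n + q.1.2.length + 1 < q.2.2.length →
        ((List.range q.1.1.length).map
          (fun j => evz (q.1.1.getD j []) n * sq q.2.2 (n + j + 1))).sum = 0) :=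
      r3.forall_mem_list.comp (Primrec.list_range.comp (Primrec.list_length.comp fl)) Primrec.id
    exact (hw.and (h0.and (h1.and (h2.and h3)))).of_eq fun q => Iff.rfl
  · have f2 : Primrec (fun q : Inp × List ℤ => q.1.2) := Primrec.snd.comp Primrec.fst
    have fl : Primrec (fun q : Inp × List ℤ => q.2) := Primrec.snd
    have r : PrimrecRel (fun (j : ℕ) (q : Inp × List ℤ) => sq q.2 (q.2.length - 1 - j) = 0) := by
      refine Primrec.eq.comp ?_ (Primrec.const 0)
      exact sqP.comp (fl.comp Primrec.snd) (Primrec.nat_sub.comp (Primrec.nat_sub.comp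
        (Primrec.list_length.comp (fl.comp Primrec.snd)) (Primrec.const 1)) Primrec.fst)
    exact (r.forall_mem_list.comp (Primrec.list_range.comp (Primrec.list_length.comp f2))
      Primrec.id).of_eq fun q => Iff.rfl

end Pool.Agent.Helper94.DF
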